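import Pool.Agent.H85.T1.FAMK
import Pool.Agent.H94.T1.S6

/-!
# T1: EQFK, equal distribution of the family modulo the square of a prime
-/

set_option autoImplicit false

namespace Pool.T1

open Polynomial Matrix Pool.HYP Pool.TOW Pool.AVS IsDedekindDomain Pool.T1.FAMKaux

theorem eqfk : EQFKStmt := by
  classical
  intro R _ _ K _ _ _ O π hR hCU c₀ hC g D h hg hD P₀ hP1 hP2 hh r₀ hrm hrd
  obtain ⟨hdis, hT, hT', htm, htd, hti⟩ := hD
  obtain ⟨N, hN⟩ : ∃ N, N = 2 * g + 1 := ⟨_, rfl⟩
  set I : Ideal R := ∏ P ∈ D.T ∪ D.T', P.asIdeal with hI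
  have hI0 : I ≠ ⊥ := Finset.prod_ne_zero_iff.2 (fun P _ => P.ne_bot)
  have hcard : Nat.card (R ⧸ I) = (∏ P ∈ D.T, Nm P) * ∏ P ∈ D.T', Nm P := by
    rw [hI, cardProd, Finset.prod_union hdis]
  have hq : 1 < qq O := by
    have := hR.res
    exact Finite.one_lt_card
  obtain ⟨tgt, htgt⟩ : ∃ tgt : HeightOneSpectrum R → R[X], tgt = fun P =>
    if P ∈ D.T then (X - C (D.c P)) * D.γ P else D.ρ P := ⟨_, rfl⟩
  have ht1 : ∀ P ∈ D.T, tgt P = (X - C (D.c P)) * D.γ P := by
    intro P hP
    rw [htgt]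
    exact if_pos hP
  have ht2 : ∀ P ∈ D.T', tgt P = D.ρ P := by
    intro P hP
    rw [htgt]
    exact if_neg (fun h => Finset.disjoint_left.1 hdis h hP)
  have htgM : ∀ P ∈ D.T ∪ D.T', (tgt P).Monic ∧ (tgt P).natDegree = N := by
    intro P hP
    rcases Finset.mem_union.1 hP with hP | hP
    · rw [ht1 P hP]
      obtain ⟨h1, h2, h3⟩ := hT P hP
      refine ⟨(monic_X_sub_C _).mul h1, ?_⟩
      rw [(monic_X_sub_C _).natDegree_mul h1, natDegree_X_sub_C, h2, hN]
      ring
    · rw [ht2 P hP]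
      obtain ⟨h1, h2, h3⟩ := hT' P hP
      exact ⟨h1, by rw [h2, hN]⟩
  have hr : ∀ n : ℕ, ∃ r : R, ∀ P ∈ D.T ∪ D.T', r - (tgt P).coeff n ∈ P.asIdeal := by
    intro n
    obtain ⟨r, hr⟩ := Ideal.exists_forall_sub_mem_ideal
      (I := fun P : (D.T ∪ D.T' : Finset (HeightOneSpectrum R)) => P.1.asIdeal)
      (fun P Q hPQ => HeightOneSpectrum.isCoprime_of_ne P.1 Q.1 (fun h => hPQ (Subtype.ext h)))
      (fun P => (tgt P.1).coeff n)
    exact ⟨r, fun P hP => hr ⟨P, hP⟩⟩
  choose r hr using hr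
  have hx : ∀ n : ℕ, ∃ x : O, IsLocalRing.residue O x = D.top.coeff n :=
    fun n => IsLocalRing.residue_surjective _
  choose x hx using hx
  -- the ideal `P₀ ^ 2 * I`
  set J : Ideal R := P₀.asIdeal ^ 2 * I with hJ
  have hcop : IsCoprime (P₀.asIdeal ^ 2) I := by
    rw [hI]
    apply IsCoprime.prod_right
    intro Q hQ
    have hne : P₀ ≠ Q := by
      rintro rfl
      rcases Finset.mem_union.1 hQ with h1 | h1
      · exact hP1 h1
      · exact hP2 h1
    have := HeightOneSpectrum.isCoprime_pow_of_ne P₀ Q hne 2 1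
    simpa using this
  have hJ0 : J ≠ ⊥ := mul_ne_zero (pow_ne_zero 2 P₀.ne_bot) hI0
  have hcardJ : Nat.card (R ⧸ J) = Nm P₀ ^ 2 * Nat.card (R ⧸ I) := by
    have h1 := cardQuot_mul_of_coprime hcop
    have hp := P₀.isPrime
    have h2 := cardQuot_pow_of_prime (P := P₀.asIdeal) P₀.ne_bot (i := 2)
    simp only [Submodule.cardQuot_apply] at h1 h2
    rw [hJ, h1, h2, Nm]
  have hmemJ : ∀ a : R, a ∈ J ↔ a ∈ P₀.asIdeal ^ 2 ∧ a ∈ I := by
    intro a
    rw [hJ, ← Ideal.inf_eq_mul_of_isCoprime hcop, Ideal.mem_inf]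
  have hr' : ∀ n : ℕ, ∃ s : R, s - r₀.coeff n ∈ P₀.asIdeal ^ 2 ∧ s - r n ∈ I := by
    intro n
    obtain ⟨u, hu, v, hv, huv⟩ := Ideal.isCoprime_iff_exists.1 hcop
    refine ⟨r₀.coeff n * v + r n * u, ?_, ?_⟩
    · have h1 : r₀.coeff n * v + r n * u - r₀.coeff n = (r n - r₀.coeff n) * u := by
        linear_combination (r₀.coeff n) * huv
      rw [h1]
      exact Ideal.mul_mem_left _ _ hu
    · have h1 : r₀.coeff n * v + r n * u - r n = (r₀.coeff n - r n) * v := by
        linear_combination (r n) * huv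
      rw [h1]
      exact Ideal.mul_mem_left _ _ hv
  choose s hs1 hs2 using hr'
  let A : ℕ → Set R := fun n => {a ∈ Lm R O π (((N - n) * h : ℕ) : ℤ) |
    a - r n ∈ I ∧ (algebraMap R K a * π ^ ((N - n) * h) - x n) / π ∈ O}
  let B : ℕ → Set R := fun n => Lm R O π (((N - n) * h : ℕ) : ℤ)
  have h1mem : (1 : R) ∈ Lm R O π ((0 * h : ℕ) : ℤ) := by
    simp only [Lm, Set.mem_setOf_eq, map_one, zero_mul, Nat.cast_zero, zpow_zero, mul_one]
    exact O.one_mem
  have hAll : All R O π g h =
      {f : R[X] | f.Monic ∧ f.natDegree = N ∧ ∀ i < N, f.coeff i ∈ B i} := by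
    ext f
    simp only [All, Set.mem_setOf_eq, ← hN]
    constructor
    · rintro ⟨hm, hd, hc⟩
      refine ⟨hm, hd, fun n hn => ?_⟩
      have := hc (N - n) (Nat.sub_le _ _)
      rwa [Nat.sub_sub_self hn.le] at this
    · rintro ⟨hm, hd, hc⟩
      refine ⟨hm, hd, fun i hi => ?_⟩
      rcases Nat.eq_zero_or_pos i with rfl | hi0
      · rw [Nat.sub_zero]
        have h2 := hm.coeff_natDegree
        rw [hd] at h2
        rw [h2]
        exact h1mem
      · have := hc (N - i) (by omega)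
        simp only [B] at this
        rwa [Nat.sub_sub_self hi] at this
  have hFam : Fam π g D h =
      {f : R[X] | f.Monic ∧ f.natDegree = N ∧ ∀ i < N, f.coeff i ∈ A i} := by
    ext f
    rw [Fam, Set.mem_setOf_eq, hAll]
    simp only [Top, Zer, Set.mem_setOf_eq, ← hN]
    constructor
    · rintro ⟨⟨hm, hd, hc⟩, htop, hz, hz'⟩
      refine ⟨hm, hd, fun n hn => ⟨hc n hn, ?_, ?_⟩⟩
      · rw [hI, memProd]
        intro P hP
        have h1 := hr n P hP
        have h2 : f.coeff n - (tgt P).coeff n ∈ P.asIdeal := by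
          rcases Finset.mem_union.1 hP with hP | hP
          · have := hz P hP n
            rwa [coeff_sub, ← ht1 P hP] at this
          · have := hz' P hP n
            rwa [coeff_sub, ← ht2 P hP] at this
        have := P.asIdeal.sub_mem h2 h1
        rwa [sub_sub_sub_cancel_right] at this
      · have h1 : algebraMap R K (f.coeff n) * π ^ ((N - n) * h) ∈ O := by
          have := hc n hn
          simp only [B, Lm, Set.mem_setOf_eq, zpow_natCast] at this
          exact this
        have h2 := htop (N - n) (Nat.sub_le _ _) ⟨_, h1⟩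
          (by simp only [Nat.sub_sub_self hn.le])
        rw [Nat.sub_sub_self hn.le, ← hx n, resEq hR] at h2
        exact h2
    · rintro ⟨hm, hd, hA⟩
      have hcN : f.coeff N = 1 := by
        have h2 := hm.coeff_natDegree
        rwa [hd] at h2
      have key : ∀ P ∈ D.T ∪ D.T', ∀ n, f.coeff n - (tgt P).coeff n ∈ P.asIdeal := by
        intro P hP n
        rcases lt_trichotomy n N with hn | hn | hn
        · have h1 := (hA n hn).2.1
          rw [hI, memProd] at h1
          have := P.asIdeal.add_mem (h1 P hP) (hr n P hP)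
          rwa [sub_add_sub_cancel] at this
        · subst hn
          have h3 := (htgM P hP).1.coeff_natDegree
          rw [(htgM P hP).2] at h3
          rw [hcN, h3, sub_self]
          exact P.asIdeal.zero_mem
        · rw [coeff_eq_zero_of_natDegree_lt (by rw [hd]; exact hn),
            coeff_eq_zero_of_natDegree_lt (by rw [(htgM P hP).2]; exact hn), sub_self]
          exact P.asIdeal.zero_mem
      refine ⟨⟨hm, hd, fun n hn => (hA n hn).1⟩, ?_, ?_, ?_⟩
      · intro i hi z hz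
        rcases Nat.eq_zero_or_pos i with rfl | hi0
        · rw [Nat.sub_zero] at hz ⊢
          rw [hcN, map_one, zero_mul, pow_zero, mul_one] at hz
          have h3 := htm.coeff_natDegree
          rw [htd, ← hN] at h3
          have h4 : z = 1 := Subtype.ext hz
          rw [h3, h4, map_one]
        · have h1 := (hA (N - i) (by omega)).2.2
          rw [Nat.sub_sub_self hi, ← hz, ← resEq hR, hx] at h1
          exact h1
      · intro P hP n
        have := key P (Finset.mem_union_left _ hP) n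
        rwa [ht1 P hP, ← coeff_sub] at this
      · intro P hP n
        have := key P (Finset.mem_union_right _ hP) n
        rwa [ht2 P hP, ← coeff_sub] at this
  let A' : ℕ → Set R := fun n => {a ∈ Lm R O π (((N - n) * h : ℕ) : ℤ) |
    a - s n ∈ J ∧ (algebraMap R K a * π ^ ((N - n) * h) - x n) / π ∈ O}
  have hAA' : ∀ n a, a ∈ A' n ↔ a ∈ A n ∧ a - r₀.coeff n ∈ P₀.asIdeal ^ 2 := by
    intro n a
    simp only [A, A', Set.mem_setOf_eq, hmemJ]
    constructor
    · rintro ⟨h1, ⟨h2, h3⟩, h4⟩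
      refine ⟨⟨h1, ?_, h4⟩, ?_⟩
      · have := I.add_mem h3 (hs2 n)
        rwa [sub_add_sub_cancel] at this
      · have := (P₀.asIdeal ^ 2).add_mem h2 (hs1 n)
        rwa [sub_add_sub_cancel] at this
    · rintro ⟨⟨h1, h2, h4⟩, h3⟩
      refine ⟨h1, ⟨?_, ?_⟩, h4⟩
      · have := (P₀.asIdeal ^ 2).sub_mem h3 (hs1 n)
        rwa [sub_sub_sub_cancel_right] at this
      · have := I.sub_mem h2 (hs2 n)
        rwa [sub_sub_sub_cancel_right] at this
  have hFam' : {f ∈ Fam π g D h | Zer (P₀.asIdeal ^ 2) (f - r₀)} =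
      {f : R[X] | f.Monic ∧ f.natDegree = N ∧ ∀ i < N, f.coeff i ∈ A' i} := by
    ext f
    rw [Set.mem_setOf_eq, hFam]
    simp only [Set.mem_setOf_eq, hAA', Zer]
    constructor
    · rintro ⟨⟨hm, hd, hA⟩, hz⟩
      refine ⟨hm, hd, fun i hi => ⟨hA i hi, ?_⟩⟩
      have := hz i
      rwa [coeff_sub] at this
    · rintro ⟨hm, hd, hA⟩
      refine ⟨⟨hm, hd, fun i hi => (hA i hi).1⟩, fun i => ?_⟩
      rw [coeff_sub]
      rcases lt_trichotomy i N with hi | hi | hi
      · exact (hA i hi).2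
      · have h1 := hm.coeff_natDegree
        have h2 := hrm.coeff_natDegree
        rw [hd, ← hi] at h1
        rw [hrd, ← hN, ← hi] at h2
        rw [h1, h2, sub_self]
        exact Ideal.zero_mem _
      · rw [coeff_eq_zero_of_natDegree_lt (by rw [hd]; exact hi),
          coeff_eq_zero_of_natDegree_lt (by rw [hrd, ← hN]; exact hi), sub_self]
        exact Ideal.zero_mem _
  have hI1 : 0 < Nat.card (R ⧸ I) := by
    have := hR.fin I hI0
    exact Nat.card_pos
  have hNm : 0 < Nm P₀ := by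
    have := hR.fin P₀.asIdeal P₀.ne_bot
    exact Nat.card_pos
  have hcJ : c₀ * Nat.card (R ⧸ J) ≤ qq O ^ h := by
    rw [hcardJ, hcard]
    exact hh
  have hcount : ∀ n ∈ Finset.range N, (A n).ncard = (A' n).ncard * Nm P₀ ^ 2 := by
    intro n hn
    have hn' := Finset.mem_range.1 hn
    have hle : qq O ^ h ≤ qq O ^ ((N - n) * h) :=
      Nat.pow_le_pow_right hq.le (Nat.le_mul_of_pos_left h (by omega))
    have h1 := hC I ((N - n) * h) hI0 (((Nat.mul_le_mul_left c₀ (by
      rw [hcardJ]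
      exact Nat.le_mul_of_pos_left _ (pow_pos hNm 2))).trans hcJ).trans hle) (r n) (x n) (x n).2
    have h2 := hC J ((N - n) * h) hJ0 (hcJ.trans hle) (s n) (x n) (x n).2
    rw [← h2, hcardJ] at h1
    have h3 : (A n).ncard * (Nat.card (R ⧸ I) * qq O) =
        (A' n).ncard * Nm P₀ ^ 2 * (Nat.card (R ⧸ I) * qq O) := by
      have h4 : (A n).ncard * Nat.card (R ⧸ I) * qq O =
        (A' n).ncard * (Nm P₀ ^ 2 * Nat.card (R ⧸ I)) * qq O := h1
      rw [← mul_assoc, h4]
      ring
    exact Nat.eq_of_mul_eq_mul_right (Nat.mul_pos hI1 (by omega)) h3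
  rw [hFam', hFam, cardMon, cardMon, Finset.prod_congr rfl hcount, Finset.prod_mul_distrib,
    Finset.prod_const, Finset.card_range, ← pow_mul, ← hN]

end Pool.T1
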