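import Pool.Agent.H78.T1.Gri2

/-!
# T1: the concrete setting is an instance of the abstract one
-/

set_option autoImplicit false

namespace Pool.T1

open Polynomial IsDedekindDomain Pool.T1

namespace Gri

section Dec

variable (F : Type) [Field F] [Finite F] (K : Type) [Field K] [Algebra (RatFunc F) K]
  [FiniteDimensional (RatFunc F) K] [Algebra.IsSeparable (RatFunc F) K]
  {O : ValuationSubring K} {π : K}

/-- Every element of `K` is the sum of an element of `R` and an element with bounded pole at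
infinity. -/
theorem decomp (hX : algebraMap (RatFunc F) K RatFunc.X ∉ O) (hπ : Dsc O π) :
    ∃ c : ℕ, ∀ x : K, ∃ r : RR F K, (x - (r : K)) * π ^ c ∈ O := by
  classical
  let b := Module.finBasis (RatFunc F) K
  have hint : ∃ y : F[X], y ≠ 0 ∧ ∀ i, jj F (K := K) y * b i ∈ RS F K := by
    let := algX F K
    have : IsScalarTower F[X] (RatFunc F) K := IsScalarTower.of_algebraMap_eq fun x => rfl
    obtain ⟨y, hy, h⟩ := exists_integral_multiples F[X] (RatFunc F) (Finset.univ.image b)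
    refine ⟨y, hy, fun i => ?_⟩
    have h1 := h (b i) (Finset.mem_image_of_mem _ (Finset.mem_univ _))
    rw [Algebra.smul_def] at h1
    exact h1
  obtain ⟨y, hy, hint⟩ := hint
  obtain ⟨c, hc⟩ := exists_pow_mul hπ (Finset.univ.image fun i => jj F (K := K) y * b i)
  have hy0 : jj F (K := K) y ≠ 0 := by
    intro h
    rw [← map_zero (jj F (K := K))] at h
    exact hy (jj_inj F h)
  refine ⟨c, fun x => ?_⟩
  have hx : x = ∑ i, algebraMap (RatFunc F) K (b.repr (x / jj F (K := K) y) i) *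
      (jj F (K := K) y * b i) := by
    have h1 := b.sum_repr (x / jj F (K := K) y)
    have h2 : x = jj F (K := K) y * (x / jj F (K := K) y) := by
      rw [mul_div_cancel₀ _ hy0]
    rw [h2]
    nth_rewrite 1 [← h1]
    rw [Finset.mul_sum]
    refine Finset.sum_congr rfl fun i _ => ?_
    rw [Algebra.smul_def, ← h2]
    ring
  choose p hp using fun i => rat_decomp F O hX (b.repr (x / jj F (K := K) y) i)
  refine ⟨∑ i, xR F K (p i) * ⟨_, hint i⟩, ?_⟩
  have h3 : ((∑ i, xR F K (p i) * ⟨_, hint i⟩ : RR F K) : K) =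
      ∑ i, algebraMap (RatFunc F) K (algebraMap F[X] (RatFunc F) (p i)) *
        (jj F (K := K) y * b i) := by
    rw [← algMap_RR, map_sum]
    rfl
  rw [h3]
  nth_rewrite 1 [hx]
  rw [← Finset.sum_sub_distrib, Finset.sum_mul]
  refine O.toSubring.sum_mem fun i _ => ?_
  rw [← sub_mul, ← map_sub, mul_assoc]
  exact O.mul_mem _ _ (hp i) (hc _ (Finset.mem_image_of_mem _ (Finset.mem_univ i)))

theorem surj_of (hX : algebraMap (RatFunc F) K RatFunc.X ∉ O) (hπ : Dsc O π) :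
    ∃ c : ℕ, ∀ m : ℤ, (c : ℤ) < m → ∀ z, ∃ a ∈ Lm (RR F K) O π m, lc O π m a = z := by
  obtain ⟨c, hc⟩ := decomp F K hX hπ
  refine ⟨c, fun m hm z => ?_⟩
  obtain ⟨z, rfl⟩ := IsLocalRing.residue_surjective z
  obtain ⟨r, hr⟩ := hc ((z : K) * (π ^ m)⁻¹)
  have hpm : π ^ m ≠ 0 := zpow_ne_zero m hπ.1
  have h1 : (r : K) * π ^ m = (z : K) -
      (((z : K) * (π ^ m)⁻¹ - (r : K)) * π ^ c * π ^ ((m - c - 1).toNat)) * π := by
    have h2 : π ^ c * π ^ ((m - c - 1).toNat) * π = π ^ m := by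
      rw [← zpow_natCast, ← zpow_natCast, Int.toNat_of_nonneg (by omega), ← zpow_add₀ hπ.1,
        ← zpow_add_one₀ hπ.1]
      congr 1
      omega
    have h3 : (((z : K) * (π ^ m)⁻¹ - (r : K)) * π ^ c * π ^ ((m - c - 1).toNat)) * π =
        ((z : K) * (π ^ m)⁻¹ - (r : K)) * (π ^ c * π ^ ((m - c - 1).toNat) * π) := by ring
    rw [h3, h2]
    field_simp
    ring
  have hw : ((z : K) * (π ^ m)⁻¹ - (r : K)) * π ^ c * π ^ ((m - c - 1).toNat) ∈ O :=
    O.mul_mem _ _ hr (pow_mem hπ.2.1 _)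
  have hrm : r ∈ Lm (RR F K) O π m := by
    rw [mem_Lm, algMap_RR, h1]
    exact O.toSubring.sub_mem z.2 (O.mul_mem _ _ hw hπ.2.1)
  refine ⟨r, hrm, ?_⟩
  rw [lc_eq hrm, ← sub_eq_zero, ← map_sub, IsLocalRing.residue_eq_zero_iff,
    IsLocalRing.mem_maximalIdeal, mem_nonunits_iff]
  rintro ⟨u, hu⟩
  have h2 : ((u : O) : K) =
      -(((z : K) * (π ^ m)⁻¹ - (r : K)) * π ^ c * π ^ ((m - c - 1).toNat)) * π := by
    rw [hu]
    change algebraMap (RR F K) K r * π ^ m - (z : K) = _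
    rw [algMap_RR, h1]
    ring
  have h3 : (((u⁻¹ : Oˣ) : O) : K) * ((u : O) : K) = 1 := by
    have h5 : ((u⁻¹ : Oˣ) : O) * (u : O) = 1 := u.inv_mul
    exact congrArg Subtype.val h5
  apply hπ.2.2.1
  rw [h2, ← mul_assoc] at h3
  rw [← eq_inv_of_mul_eq_one_left h3]
  exact O.mul_mem _ _ (Subtype.mem _) (O.toSubring.neg_mem hw)

theorem big_of (hO : OnePole F O) (hπ : Dsc O π)
    (hfin : Finite (IsLocalRing.ResidueField O)) :
    ∃ c : ℕ, ∀ m : ℕ, qq O ^ m ≤ c * (Lm (RR F K) O π (m : ℤ)).ncard := by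
  obtain ⟨c, hc⟩ := surj_of F K hO.1 hπ
  have hq : 0 < qq O := Nat.card_pos
  have hf : ∀ m : ℕ, (Lm (RR F K) O π (m : ℤ)).Finite := by
    intro m
    have h1 := Lm_finite hπ hfin (small_of hO hπ) (m + 1)
    have h2 : ((m + 1 : ℕ) : ℤ) - 1 = (m : ℤ) := by push_cast; ring
    rw [h2] at h1
    exact h1
  have hpos : ∀ m : ℕ, 1 ≤ (Lm (RR F K) O π (m : ℤ)).ncard := by
    intro m
    exact (Set.ncard_pos (hf m)).2 ⟨0, Lm_zero _⟩
  have key : ∀ k : ℕ, qq O ^ k ≤ (Lm (RR F K) O π ((c + k : ℕ) : ℤ)).ncard := by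
    intro k
    induction k with
    | zero => rw [pow_zero]; exact hpos _
    | succ k ih =>
      have h1 := Lm_grow hπ (hf (c + (k + 1))) (hc _ (by push_cast; omega))
      have h2 : ((c + (k + 1) : ℕ) : ℤ) - 1 = ((c + k : ℕ) : ℤ) := by push_cast; ring
      rw [h2] at h1
      rw [pow_succ, mul_comm]
      exact (Nat.mul_le_mul_left _ ih).trans h1
  refine ⟨qq O ^ c, fun m => ?_⟩
  rcases Nat.lt_or_ge m c with h | h
  · exact (Nat.pow_le_pow_right hq h.le).trans (Nat.le_mul_of_pos_right _ (hpos m))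
  · obtain ⟨k, rfl⟩ := Nat.exists_eq_add_of_le h
    rw [pow_add]
    exact Nat.mul_le_mul_left _ (key k)

theorem cl_of : Finite (ClassGroup (RR F K)) := by
  classical
  let := algX F K
  have : IsScalarTower F[X] (RatFunc F) K := IsScalarTower.of_algebraMap_eq fun x => rfl
  have hF := Fintype.ofFinite F
  have h1 : Fintype (ClassGroup (integralClosure F[X] K)) :=
    ClassGroup.fintypeOfAdmissibleOfFinite (RatFunc F) K
      (Polynomial.cardPowDegreeIsAdmissible :
        AbsoluteValue.IsAdmissible (Polynomial.cardPowDegree : AbsoluteValue F[X] ℤ))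
  exact @Finite.of_fintype _ h1

end Dec

end Gri

open Gri in
/-- **GRI.** -/
theorem gri : GRIStmt := by
  intro F _ _ h2F K _ _ _ _ O hO
  obtain ⟨⟨ϖ, hϖ⟩, hres⟩ := dvr_inf F K O hO.1
  refine ⟨⟨ϖ, unif_of_dsc hϖ⟩, fun π hπ => ?_⟩
  have hD : Dsc O π := dsc_of_unif hϖ hπ
  let ψ : F →+* K := (jj F (K := K)).comp C
  have hψ : Function.Injective ψ := ψ.injective
  refine ⟨⟨?_, ?_, ?_, cl_of F K, hπ.1, hπ.2.1, hπ.2.2.1, hD.2.2.2, hres, small_of hO hD,
    big_of F K hO hD hres⟩, ?_⟩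
  · intro h
    apply h2F
    apply hψ
    rw [map_zero, ← h]
    exact map_ofNat ψ 2
  · obtain ⟨p, hp⟩ := CharP.exists F
    exact ⟨p, CharP.char_is_prime F p, charP_of_injective_ringHom hψ p⟩
  · intro I hI
    have := hfr F K
    exact Ring.HasFiniteQuotients.finiteQuotient hI
  · intro m a
    constructor
    · rintro ⟨h1, h2⟩
      refine ⟨⟨a, (mem_RS_iff F a).2 h1⟩, ?_, rfl⟩
      rw [mem_Lm, zpow_natCast]
      exact h2 π hπ.2.1 hπ.2.2.1
    · rintro ⟨r, hr, rfl⟩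
      refine ⟨(mem_RS_iff F _).1 r.2, fun π' h1 h2 => ?_⟩
      rw [mem_Lm, zpow_natCast] at hr
      have h3 : algebraMap (RR F K) K r * π' ^ m =
          (algebraMap (RR F K) K r * π ^ m) * (π' / π) ^ m := by
        rw [div_pow]
        have := hπ.1
        field_simp
      rw [h3]
      exact O.mul_mem _ _ hr (pow_mem (hπ.2.2.2 π' h1 h2) m)

end Pool.T1
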