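import Pool.Agent.H29.T1.S7

/-!
# T1: the elements of the family are irreducible and separable
-/

set_option autoImplicit false

namespace Pool.T1

open Polynomial Matrix Pool.HYP Pool.TOW Pool.AVS IsDedekindDomain

namespace Irrk

/-- Irreducibility of a polynomial whose roots are scaled. -/
theorem irr_of_scaleRoots {K : Type} [Field K] (p : K[X]) (s : K)
    (h : Irreducible (p.scaleRoots s)) : Irreducible p := by
  refine ⟨?_, ?_⟩
  · intro hu
    apply h.not_isUnit
    have h0 : (p.scaleRoots s).natDegree = 0 := by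
      rw [natDegree_scaleRoots]
      exact natDegree_eq_zero_of_isUnit hu
    have h1 : p.scaleRoots s ≠ 0 := h.ne_zero
    obtain ⟨c, hc⟩ := natDegree_eq_zero.1 h0
    rw [← hc] at h1 ⊢
    exact isUnit_C.2 (IsUnit.mk0 c fun h2 => h1 (by rw [h2, C_0]))
  · intro a b hab
    have h1 : p.scaleRoots s = a.scaleRoots s * b.scaleRoots s := by
      rw [hab, mul_scaleRoots_of_noZeroDivisors]
    have ha0 : a ≠ 0 := by
      rintro rfl
      rw [zero_mul] at hab
      apply h.ne_zero
      rw [hab, zero_scaleRoots]
    have hb0 : b ≠ 0 := by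
      rintro rfl
      rw [mul_zero] at hab
      apply h.ne_zero
      rw [hab, zero_scaleRoots]
    rcases h.isUnit_or_isUnit h1 with h2 | h2
    · left
      have h3 := natDegree_eq_zero_of_isUnit h2
      rw [natDegree_scaleRoots] at h3
      obtain ⟨c, hc⟩ := natDegree_eq_zero.1 h3
      rw [← hc] at ha0 ⊢
      exact isUnit_C.2 (IsUnit.mk0 c fun h4 => ha0 (by rw [h4, C_0]))
    · right
      have h3 := natDegree_eq_zero_of_isUnit h2
      rw [natDegree_scaleRoots] at h3
      obtain ⟨c, hc⟩ := natDegree_eq_zero.1 h3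
      rw [← hc] at hb0 ⊢
      exact isUnit_C.2 (IsUnit.mk0 c fun h4 => hb0 (by rw [h4, C_0]))

end Irrk

open Irrk in
/-- **IRRK.** -/
theorem irrk : IRRKStmt := by
  intro R _ _ K _ _ _ O π hG g D h hg hD f hf
  obtain ⟨-, -, -, htm, htd, hti⟩ := hD
  obtain ⟨⟨hm, hd, hL⟩, hT, -, -⟩ := hf
  have hmK : (fk K f).Monic := hm.map _
  have hdK : (fk K f).natDegree = 2 * g + 1 := by rw [hm.natDegree_map, hd]
  have hpi0 : π ≠ 0 := hG.pi_ne
  -- the scaled polynomial
  have hco : ∀ j, ((fk K f).scaleRoots (π ^ h)).coeff j =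
      algebraMap R K (f.coeff j) * π ^ (h * (2 * g + 1 - j)) := by
    intro j
    rw [coeff_scaleRoots, coeff_map, hdK, ← pow_mul]
  have hmem : ∀ j, ((fk K f).scaleRoots (π ^ h)).coeff j ∈ O := by
    intro j
    rw [hco]
    rcases Nat.lt_or_ge (2 * g + 1) j with h2 | h2
    · rw [coeff_eq_zero_of_natDegree_lt (show f.natDegree < j by omega), map_zero, zero_mul]
      exact O.zero_mem
    · have h3 : algebraMap R K (f.coeff (2 * g + 1 - (2 * g + 1 - j))) *
          π ^ (((2 * g + 1 - j) * h : ℕ) : ℤ) ∈ O := hL (2 * g + 1 - j) (by omega)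
      rw [show 2 * g + 1 - (2 * g + 1 - j) = j by omega, zpow_natCast, mul_comm _ h] at h3
      exact h3
  have hlift : ∃ p : O[X], p.map (algebraMap O K) = (fk K f).scaleRoots (π ^ h) := by
    have h1 : (fk K f).scaleRoots (π ^ h) ∈ lifts (algebraMap O K) := by
      rw [lifts_iff_coeff_lifts]
      intro j
      exact ⟨⟨_, hmem j⟩, rfl⟩
    exact h1
  obtain ⟨p, hp⟩ := hlift
  have hinj : Function.Injective (algebraMap O K) := IsFractionRing.injective O K
  have hpc : ∀ j, ((p.coeff j : O) : K) = algebraMap R K (f.coeff j) *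
      π ^ (h * (2 * g + 1 - j)) := by
    intro j
    rw [← hco, ← hp, coeff_map]
    rfl
  have hpm : p.Monic := by
    apply monic_of_injective hinj
    rw [hp, monic_scaleRoots_iff]
    exact hmK
  have hpd : p.natDegree = 2 * g + 1 := by
    rw [← hpm.natDegree_map (algebraMap O K), hp, natDegree_scaleRoots, hdK]
  have hpt : p.map (IsLocalRing.residue O) = D.top := by
    ext j
    rw [coeff_map]
    rcases Nat.lt_or_ge (2 * g + 1) j with h2 | h2
    · rw [coeff_eq_zero_of_natDegree_lt (show p.natDegree < j by omega),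
        coeff_eq_zero_of_natDegree_lt (show D.top.natDegree < j by omega), map_zero]
    · have h3 := hT (2 * g + 1 - j) (by omega) (p.coeff j)
      rw [show 2 * g + 1 - (2 * g + 1 - j) = j by omega] at h3
      apply h3
      rw [hpc, mul_comm h]
  have hpi : Irreducible p := by
    apply hpm.irreducible_of_irreducible_map (IsLocalRing.residue O)
    rw [hpt]
    exact hti
  have hKi : Irreducible ((fk K f).scaleRoots (π ^ h)) := by
    rw [← hp]
    exact (hpm.irreducible_iff_irreducible_map_fraction_map (K := K)).1 hpi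
  have hirr : Irreducible (fk K f) := irr_of_scaleRoots _ _ hKi
  refine ⟨hirr, ?_⟩
  rw [separable_iff_derivative_ne_zero hirr]
  intro hder
  have := hG.res
  have : Fintype (IsLocalRing.ResidueField O) := Fintype.ofFinite _
  have hts : D.top.Separable := PerfectField.separable_of_irreducible hti
  rw [separable_iff_derivative_ne_zero hti] at hts
  apply hts
  have hpder : derivative p = 0 := by
    ext j
    rw [coeff_derivative, coeff_zero]
    have h1 : (derivative (fk K f)).coeff j = 0 := by rw [hder, coeff_zero]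
    rw [coeff_derivative, coeff_map] at h1
    have h2 : algebraMap O K (p.coeff (j + 1)) = algebraMap R K (f.coeff (j + 1)) *
      π ^ (h * (2 * g + 1 - (j + 1))) := hpc (j + 1)
    have h3 : algebraMap O K (p.coeff (j + 1) * ((j : O) + 1)) = algebraMap O K 0 := by
      rw [map_mul, h2, map_add, map_one, map_natCast, map_zero, mul_right_comm, h1, zero_mul]
    rw [hinj h3]
  rw [← hpt, derivative_map, hpder, Polynomial.map_zero]

end Pool.T1
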