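import Pool.Agent.H29.T1.Conc

/-!
# T1: the valuation rings of `K` above a place of `F(t)` are discrete
-/

set_option autoImplicit false

namespace Pool.T1.Gri

open Polynomial IsDedekindDomain Pool.T1

/-- `x` is a unit of the valuation ring `O`. -/
def UO {K : Type} [Field K] (O : ValuationSubring K) (x : K) : Prop := x ∈ O ∧ x⁻¹ ∈ O

section UO

variable {K : Type} [Field K] {O : ValuationSubring K}

theorem UO.mul {x y : K} (hx : UO O x) (hy : UO O y) : UO O (x * y) :=
  ⟨O.mul_mem _ _ hx.1 hy.1, by rw [mul_inv]; exact O.mul_mem _ _ hx.2 hy.2⟩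

theorem UO.inv {x : K} (hx : UO O x) : UO O x⁻¹ := ⟨hx.2, by rw [inv_inv]; exact hx.1⟩

theorem UO.one : UO O (1 : K) := ⟨O.one_mem, by rw [inv_one]; exact O.one_mem⟩

theorem UO.pow {x : K} (hx : UO O x) (n : ℕ) : UO O (x ^ n) := by
  induction n with
  | zero => rw [pow_zero]; exact UO.one
  | succ n ih => rw [pow_succ]; exact ih.mul hx

theorem UO.zpow {x : K} (hx : UO O x) (n : ℤ) : UO O (x ^ n) := by
  rcases n with n | n
  · rw [Int.ofNat_eq_natCast, zpow_natCast]; exact hx.pow n
  · rw [zpow_negSucc]; exact (hx.pow _).inv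

theorem inv_not_mem_of_unif {ϖ : K} (h1 : ϖ ∈ O) (h2 : ϖ⁻¹ ∉ O) {n : ℤ} (hn : n < 0) :
    ϖ ^ n ∉ O := by
  intro h
  obtain ⟨k, rfl⟩ : ∃ k : ℕ, n = -((k : ℤ) + 1) := ⟨(-n - 1).toNat, by omega⟩
  have h0 : ϖ ≠ 0 := by
    rintro rfl
    rw [inv_zero] at h2
    exact h2 O.zero_mem
  apply h2
  have h3 : ϖ⁻¹ = ϖ ^ (-((k : ℤ) + 1)) * ϖ ^ k := by
    rw [neg_add, zpow_add₀ h0, zpow_neg, zpow_natCast, zpow_neg_one]
    field_simp
  rw [h3]
  exact O.mul_mem _ _ h (pow_mem h1 k)

end UO

/-- `O` is discrete with uniformizer `ϖ`. -/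
def Dsc {K : Type} [Field K] (O : ValuationSubring K) (ϖ : K) : Prop :=
  ϖ ≠ 0 ∧ ϖ ∈ O ∧ ϖ⁻¹ ∉ O ∧ ∀ x : K, x ≠ 0 → ∃ n : ℤ, UO O (x / ϖ ^ n)

section Finq

theorem hfq (F : Type) [Field F] [Finite F] : Ring.HasFiniteQuotients F[X] := by
  refine ⟨fun {I} hI => ?_⟩
  obtain ⟨p, hp⟩ := (IsPrincipalIdealRing.principal I).principal
  have hp0 : p ≠ 0 := by
    rintro rfl
    apply hI
    rw [hp]
    simp
  have h1 : Module.Finite F (AdjoinRoot p) := (AdjoinRoot.powerBasis hp0).finite
  have h2 : Finite (AdjoinRoot p) := Module.finite_of_finite F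
  have h3 : Finite (F[X] ⧸ Ideal.span {p}) := h2
  rw [hp]
  exact h3

variable (F : Type) [Field F] [Finite F] (K : Type) [Field K] [Algebra (RatFunc F) K]
  [FiniteDimensional (RatFunc F) K] [Algebra.IsSeparable (RatFunc F) K]

theorem hfr : Ring.HasFiniteQuotients (RR F K) := by
  have := hfq F
  have := finite_RR F K
  exact Ring.HasFiniteQuotients.of_module_finite F[X] (RR F K)

end Finq

section Const

variable (F : Type) [Field F] [Finite F] {K : Type} [Field K] [Algebra (RatFunc F) K]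

/-- The embedding of the polynomials. -/
noncomputable def jj : F[X] →+* K :=
  (algebraMap (RatFunc F) K).comp (algebraMap F[X] (RatFunc F))

theorem jj_C_mem (V : ValuationSubring K) (c : F) : jj F (K := K) (C c) ∈ V := by
  by_cases hc : c = 0
  · rw [hc, C_0, map_zero]
    exact V.zero_mem
  · have h := Fintype.ofFinite F
    have h1 : c ^ (Fintype.card F - 1) = 1 := FiniteField.pow_card_sub_one_eq_one c hc
    have h2 : (jj F (K := K) (C c)) ^ (Fintype.card F - 1) = 1 := by
      rw [← map_pow, ← C_pow, h1, C_1, map_one]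
    have h3 : 0 < Fintype.card F - 1 := by
      have := Fintype.one_lt_card (α := F)
      omega
    rcases V.mem_or_inv_mem (jj F (K := K) (C c)) with h4 | h4
    · exact h4
    · have h5 : jj F (K := K) (C c) = (jj F (K := K) (C c))⁻¹ ^ (Fintype.card F - 1 - 1) := by
        have h6 : jj F (K := K) (C c) ≠ 0 := by
          intro h7
          rw [h7, zero_pow h3.ne'] at h2
          exact zero_ne_one h2
        rw [inv_pow]
        apply eq_inv_of_mul_eq_one_left
        rw [← pow_succ', show Fintype.card F - 1 - 1 + 1 = Fintype.card F - 1 by omega]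
        exact h2
      rw [h5]
      exact pow_mem h4 _

theorem jj_mem (V : ValuationSubring K) (hX : algebraMap (RatFunc F) K RatFunc.X ∈ V)
    (p : F[X]) : jj F (K := K) p ∈ V := by
  induction p using Polynomial.induction_on' with
  | add p q hp hq => rw [map_add]; exact V.add_mem _ _ hp hq
  | monomial n c =>
    rw [← C_mul_X_pow_eq_monomial, map_mul, map_pow]
    refine V.mul_mem _ _ (jj_C_mem F V c) (pow_mem ?_ n)
    have h1 : jj F (K := K) X = algebraMap (RatFunc F) K RatFunc.X := by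
      unfold jj
      rw [RingHom.comp_apply, RatFunc.algebraMap_X]
    rw [h1]
    exact hX

/-- Elements integral over a subring of a valuation ring. -/
theorem mem_of_integralElem {A : Type} [CommRing A] (φ : A →+* K) (V : ValuationSubring K)
    (hφ : ∀ a, φ a ∈ V) {x : K} (hx : φ.IsIntegralElem x) : x ∈ V := by
  obtain ⟨p, hp, hpx⟩ := hx
  let φ' : A →+* V := φ.codRestrict V.toSubring hφ
  have h1 : IsIntegral V x := by
    refine ⟨p.map φ', hp.map _, ?_⟩
    rw [eval₂_map]
    exact hpx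
  obtain ⟨y, hy⟩ := IsIntegrallyClosed.isIntegral_iff.1 h1
  rw [← hy]
  exact y.2

theorem RS_le (V : ValuationSubring K) (hX : algebraMap (RatFunc F) K RatFunc.X ∈ V)
    {a : K} (ha : a ∈ RS F K) : a ∈ V := by
  rw [mem_RS] at ha
  exact mem_of_integralElem _ V (jj_mem F V hX) ha

end Const

section Main

variable (F : Type) [Field F] [Finite F] (K : Type) [Field K] [Algebra (RatFunc F) K]
  [FiniteDimensional (RatFunc F) K] [Algebra.IsSeparable (RatFunc F) K]

/-- The valuation rings containing `t` in their maximal ideal are discrete, with finite residue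
field. -/
theorem dvr_of (O : ValuationSubring K) (h1 : algebraMap (RatFunc F) K RatFunc.X ∈ O)
    (h2 : (algebraMap (RatFunc F) K RatFunc.X)⁻¹ ∉ O) :
    (∃ ϖ, Dsc O ϖ) ∧ Finite (IsLocalRing.ResidueField O) := by
  let R := RR F K
  let i : R →+* O := (RS F K).subtype.codRestrict O.toSubring fun a => RS_le F O h1 a.2
  have hi : ∀ a : R, ((i a : O) : K) = (a : K) := fun a => rfl
  let P : Ideal R := (IsLocalRing.maximalIdeal O).comap i
  have hPp : P.IsPrime := Ideal.comap_isPrime i _
  have hmem : ∀ a : R, a ∈ P ↔ ((a : K) = 0 ∨ (a : K)⁻¹ ∉ O) := by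
    intro a
    rw [Ideal.mem_comap, IsLocalRing.mem_maximalIdeal, mem_nonunits_iff]
    constructor
    · intro h
      by_contra h3
      push Not at h3
      apply h
      refine IsUnit.of_mul_eq_one ⟨(a : K)⁻¹, h3.2⟩ ?_
      apply Subtype.ext
      change (a : K) * (a : K)⁻¹ = 1
      exact mul_inv_cancel₀ h3.1
    · rintro h ⟨u, hu⟩
      have h4 : ((u⁻¹ : Oˣ) : O) * i a = 1 := by rw [← hu]; exact u.inv_mul
      have h5 : (((u⁻¹ : Oˣ) : O) : K) * (a : K) = 1 := congrArg Subtype.val h4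
      rcases h with h | h
      · rw [h, mul_zero] at h5
        exact zero_ne_one h5
      · apply h
        rw [← eq_inv_of_mul_eq_one_left h5]
        exact Subtype.mem _
  have hX0 : algebraMap (RatFunc F) K RatFunc.X ≠ 0 := by
    intro h
    rw [h, inv_zero] at h2
    exact h2 O.zero_mem
  have hXR : xR F K X ∈ P := by
    rw [hmem]
    right
    rw [xR_coe, RatFunc.algebraMap_X]
    exact h2
  have hP0 : P ≠ ⊥ := by
    intro h
    rw [h, Ideal.mem_bot] at hXR
    apply hX0
    have h3 := congrArg Subtype.val hXR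
    rw [xR_coe, RatFunc.algebraMap_X] at h3
    exact h3
  have hfr' := hfr F K
  have hPf : Finite (R ⧸ P) := Ring.HasFiniteQuotients.finiteQuotient hP0
  have hPm : P.IsMaximal := Ring.HasFiniteQuotients.maximalOfPrime hP0
  -- the localization
  have hdvr : IsDiscreteValuationRing (Localization.AtPrime P) :=
    IsLocalization.AtPrime.isDiscreteValuationRing_of_dedekind_domain R hP0 _
  have hunit : ∀ y : P.primeCompl, IsUnit (algebraMap R K y) := by
    intro y
    refine IsUnit.mk0 _ fun h => y.2 ?_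
    rw [SetLike.mem_coe, hmem]
    exact Or.inl h
  let φ : Localization.AtPrime P →+* K := IsLocalization.lift hunit
  have hφ : ∀ a : R, φ (algebraMap R _ a) = (a : K) := fun a => IsLocalization.lift_eq hunit a
  have hcompl : ∀ y : P.primeCompl, UO O ((y : R) : K) := by
    intro y
    refine ⟨(i y).2, ?_⟩
    by_contra h
    apply y.2
    rw [SetLike.mem_coe, hmem]
    exact Or.inr h
  have hφO : ∀ z, φ z ∈ O := by
    intro z
    obtain ⟨⟨a, b⟩, h⟩ := IsLocalization.surj P.primeCompl z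
    have h3 := congrArg φ h
    rw [map_mul, hφ, hφ] at h3
    have hb0 : ((b : R) : K) ≠ 0 := (hunit b).ne_zero
    have h4 : φ z = (a : K) * ((b : R) : K)⁻¹ := by
      rw [← div_eq_mul_inv, eq_div_iff hb0]
      exact h3
    rw [h4]
    exact O.mul_mem _ _ (i a).2 (hcompl b).2
  have hφU : ∀ z, IsUnit z → UO O (φ z) := by
    rintro z ⟨u, rfl⟩
    refine ⟨hφO _, ?_⟩
    rw [← eq_inv_of_mul_eq_one_left (show φ ((u⁻¹ : (Localization.AtPrime P)ˣ) :
      Localization.AtPrime P) * φ u = 1 by rw [← map_mul, u.inv_mul, map_one])]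
    exact hφO _
  obtain ⟨ϖ, hϖ⟩ := IsDiscreteValuationRing.exists_irreducible (Localization.AtPrime P)
  have hinj : Function.Injective φ := by
    rw [injective_iff_map_eq_zero]
    intro z hz
    obtain ⟨⟨a, b⟩, h⟩ := IsLocalization.surj P.primeCompl z
    have h3 := congrArg φ h
    rw [map_mul, hz, zero_mul, hφ] at h3
    have h4 : a = 0 := Subtype.ext h3.symm
    have h5 : z * algebraMap R _ (b : R) = 0 := by rw [h, h4, map_zero]
    rcases mul_eq_zero.1 h5 with h6 | h6
    · exact h6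
    · exfalso
      have h7 : φ (algebraMap R _ (b : R)) = 0 := by rw [h6, map_zero]
      rw [hφ] at h7
      exact (hunit b).ne_zero h7
  have hϖ0 : φ ϖ ≠ 0 := fun h => hϖ.ne_zero (hinj (by rw [h, map_zero]))
  have hrep : ∀ z : Localization.AtPrime P, z ≠ 0 → ∃ (n : ℕ) (u : (Localization.AtPrime P)ˣ),
      φ z = φ u * φ ϖ ^ n := by
    intro z hz
    obtain ⟨n, u, hu⟩ := IsDiscreteValuationRing.eq_unit_mul_pow_irreducible hz hϖ
    exact ⟨n, u, by rw [hu, map_mul, map_pow]⟩
  have hval' : ∀ x : K, x ≠ 0 → ∃ (n : ℤ) (u : (Localization.AtPrime P)ˣ),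
      x = φ u * φ ϖ ^ n := by
    intro x hx
    obtain ⟨a, b, hb, hab⟩ := IsFractionRing.div_surjective (A := R) x
    have hb0 : b ≠ 0 := nonZeroDivisors.ne_zero hb
    have ha0 : a ≠ 0 := by
      rintro rfl
      rw [map_zero, zero_div] at hab
      exact hx hab.symm
    have hne : ∀ c : R, c ≠ 0 → algebraMap R (Localization.AtPrime P) c ≠ 0 := by
      intro c hc h
      apply hc
      apply Subtype.ext
      change (c : K) = 0
      rw [← hφ, h, map_zero]
    obtain ⟨n, u, hn⟩ := hrep _ (hne a ha0)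
    obtain ⟨m, w, hm⟩ := hrep _ (hne b hb0)
    rw [hφ] at hn hm
    refine ⟨(n : ℤ) - m, u * w⁻¹, ?_⟩
    have hw : φ ((w⁻¹ : (Localization.AtPrime P)ˣ) : Localization.AtPrime P) = (φ w)⁻¹ :=
      eq_inv_of_mul_eq_one_left (by rw [← map_mul, w.inv_mul, map_one])
    rw [← hab, algMap_RR, algMap_RR, hn, hm, Units.val_mul, map_mul, hw, zpow_sub₀ hϖ0,
      zpow_natCast, zpow_natCast]
    rw [div_eq_mul_inv, div_eq_mul_inv, mul_inv]
    ring
  have hval : ∀ x : K, x ≠ 0 → ∃ n : ℤ, UO O (x / φ ϖ ^ n) := by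
    intro x hx
    obtain ⟨n, u, hn⟩ := hval' x hx
    refine ⟨n, ?_⟩
    rw [hn, mul_div_cancel_right₀ _ (zpow_ne_zero n hϖ0)]
    exact hφU _ u.isUnit
  have hϖO : φ ϖ ∈ O := hφO _
  have hϖi : (φ ϖ)⁻¹ ∉ O := by
    intro h
    obtain ⟨n, hn⟩ := hval _ (inv_ne_zero hX0)
    apply h2
    have h3 : (algebraMap (RatFunc F) K RatFunc.X)⁻¹ =
        (algebraMap (RatFunc F) K RatFunc.X)⁻¹ / φ ϖ ^ n * φ ϖ ^ n := by
      rw [div_mul_cancel₀ _ (zpow_ne_zero n hϖ0)]
    rw [h3]
    exact O.mul_mem _ _ hn.1 ((UO.zpow ⟨hϖO, h⟩ n).1)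
  refine ⟨⟨φ ϖ, hϖ0, hϖO, hϖi, hval⟩, ?_⟩
  -- the residue field
  have hsurj : ∀ x : O, ∃ a : R, IsLocalRing.residue O x = IsLocalRing.residue O (i a) := by
    intro x
    by_cases hxu : (x : K)⁻¹ ∈ O
    · by_cases hx : (x : K) = 0
      · refine ⟨0, ?_⟩
        rw [show x = 0 from Subtype.ext hx, map_zero, map_zero i, map_zero]
      obtain ⟨n, u, hn⟩ := hval' _ hx
      have hu : UO O (φ u) := hφU _ u.isUnit
      have h3 : UO O (φ ϖ ^ n) := by
        have h4 : φ ϖ ^ n = (x : K) * (φ u)⁻¹ := by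
          have h5 : φ u ≠ 0 := fun h => hx (by rw [hn, h, zero_mul])
          rw [hn]
          field_simp
        rw [h4]
        exact UO.mul ⟨x.2, hxu⟩ hu.inv
      have hn0 : n = 0 := by
        rcases lt_trichotomy n 0 with h | h | h
        · exact absurd h3.1 (inv_not_mem_of_unif hϖO hϖi h)
        · exact h
        · have h4 := h3.2
          rw [← zpow_neg] at h4
          exact absurd h4 (inv_not_mem_of_unif hϖO hϖi (by omega))
      rw [hn0, zpow_zero, mul_one] at hn
      obtain ⟨⟨a, b⟩, h⟩ := IsLocalization.surj P.primeCompl (u : Localization.AtPrime P)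
      have h5 := congrArg φ h
      rw [map_mul, hφ, hφ, ← hn] at h5
      obtain ⟨b', p, hp, hbp⟩ := hPm.exists_inv b.2
      refine ⟨a * b', ?_⟩
      rw [← sub_eq_zero, ← map_sub, IsLocalRing.residue_eq_zero_iff]
      have h6 : x - i (a * b') = x * i p := by
        apply Subtype.ext
        have h7 : (b' : K) * ((b : R) : K) + (p : K) = 1 := congrArg Subtype.val hbp
        change (x : K) - (a : K) * (b' : K) = (x : K) * (p : K)
        have h8 : (x : K) * ((b : R) : K) = (a : K) := h5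
        rw [← h8]
        linear_combination (-(x : K)) * h7
      rw [h6]
      exact Ideal.mul_mem_left _ _ hp
    · refine ⟨0, ?_⟩
      rw [map_zero i, map_zero, IsLocalRing.residue_eq_zero_iff, IsLocalRing.mem_maximalIdeal,
        mem_nonunits_iff]
      rintro ⟨u, hu⟩
      apply hxu
      have h4 : (((u⁻¹ : Oˣ) : O) : K) * (x : K) = 1 := by
        have h5 : ((u⁻¹ : Oˣ) : O) * x = 1 := by rw [← hu]; exact u.inv_mul
        exact congrArg Subtype.val h5
      rw [← eq_inv_of_mul_eq_one_left h4]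
      exact Subtype.mem _
  have hker : ∀ a ∈ P, (IsLocalRing.residue O).comp i a = 0 := by
    intro a ha
    rw [RingHom.comp_apply, IsLocalRing.residue_eq_zero_iff]
    exact ha
  refine Finite.of_surjective (Ideal.Quotient.lift P ((IsLocalRing.residue O).comp i) hker) ?_
  intro z
  obtain ⟨x, rfl⟩ := IsLocalRing.residue_surjective z
  obtain ⟨a, ha⟩ := hsurj x
  refine ⟨Ideal.Quotient.mk P a, ?_⟩
  rw [Ideal.Quotient.lift_mk, ha]
  rfl

end Main

end Pool.T1.Gri
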