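import Pool.Agent.H78.T1.Twist

/-!
# T1: facts on the valuation ring at infinity
-/

set_option autoImplicit false

namespace Pool.T1.Gri

open Polynomial IsDedekindDomain Pool.T1

section Dsc

variable {K : Type} [Field K] {O : ValuationSubring K}

theorem dsc_pos {ϖ z : K} {n : ℤ} (hϖ : Dsc O ϖ) (hz : z⁻¹ ∉ O) (hn : UO O (z / ϖ ^ n)) :
    1 ≤ n := by
  by_contra h
  apply hz
  have h1 : z⁻¹ = (z / ϖ ^ n)⁻¹ * ϖ ^ ((-n).toNat) := by
    rw [← zpow_natCast, Int.toNat_of_nonneg (by omega), inv_div, zpow_neg]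
    have := zpow_ne_zero n hϖ.1
    field_simp
  rw [h1]
  exact O.mul_mem _ _ hn.2 (pow_mem hϖ.2.1 _)

theorem dsc_div {ϖ z : K} (hϖ : Dsc O ϖ) (hz : z⁻¹ ∉ O) : ∃ n : ℤ, UO O (z / ϖ ^ n) := by
  refine hϖ.2.2.2 z ?_
  rintro rfl
  rw [inv_zero] at hz
  exact hz O.zero_mem

theorem dsc_div_mem {ϖ z : K} (hϖ : Dsc O ϖ) (hz : z⁻¹ ∉ O) : z / ϖ ∈ O := by
  obtain ⟨n, hn⟩ := dsc_div hϖ hz
  have h1 := dsc_pos hϖ hz hn
  have h2 : z / ϖ = (z / ϖ ^ n) * ϖ ^ ((n - 1).toNat) := by
    rw [← zpow_natCast, Int.toNat_of_nonneg (by omega), zpow_sub₀ hϖ.1, zpow_one]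
    have := zpow_ne_zero n hϖ.1
    have := hϖ.1
    field_simp
  rw [h2]
  exact O.mul_mem _ _ hn.1 (pow_mem hϖ.2.1 _)

theorem unif_of_dsc {ϖ : K} (hϖ : Dsc O ϖ) : Unif O ϖ :=
  ⟨hϖ.1, hϖ.2.1, hϖ.2.2.1, fun _ _ hz => dsc_div_mem hϖ hz⟩

theorem dsc_of_unif {ϖ π : K} (hϖ : Dsc O ϖ) (hπ : Unif O π) : Dsc O π := by
  have hw : UO O (π / ϖ) := by
    refine ⟨dsc_div_mem hϖ hπ.2.2.1, ?_⟩
    rw [inv_div]
    exact hπ.2.2.2 ϖ hϖ.2.1 hϖ.2.2.1
  refine ⟨hπ.1, hπ.2.1, hπ.2.2.1, fun x hx => ?_⟩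
  obtain ⟨n, hn⟩ := hϖ.2.2.2 x hx
  refine ⟨n, ?_⟩
  have h1 : x / π ^ n = (x / ϖ ^ n) * ((π / ϖ) ^ n)⁻¹ := by
    rw [div_zpow]
    have := zpow_ne_zero n hϖ.1
    have := zpow_ne_zero n hπ.1
    field_simp
  rw [h1]
  exact hn.mul (hw.zpow n).inv

/-- Some power of the uniformizer kills the poles of finitely many elements. -/
theorem exists_pow_mul {π : K} (hπ : Dsc O π) (s : Finset K) :
    ∃ c : ℕ, ∀ x ∈ s, x * π ^ c ∈ O := by
  classical
  induction s using Finset.induction_on with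
  | empty => exact ⟨0, fun x hx => by simp at hx⟩
  | insert a s _ ih =>
    obtain ⟨c, hc⟩ := ih
    have ha : ∃ d : ℕ, a * π ^ d ∈ O := by
      by_cases ha0 : a = 0
      · exact ⟨0, by rw [ha0, zero_mul]; exact O.zero_mem⟩
      · obtain ⟨n, hn⟩ := hπ.2.2.2 a ha0
        refine ⟨(-n).toNat, ?_⟩
        have h1 : a * π ^ ((-n).toNat) = (a / π ^ n) * π ^ (n + ((-n).toNat : ℤ)).toNat := by
          rw [← zpow_natCast, ← zpow_natCast, Int.toNat_of_nonneg (by omega : 0 ≤ n + _),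
            zpow_add₀ hπ.1]
          have := zpow_ne_zero n hπ.1
          field_simp
        rw [h1]
        exact O.mul_mem _ _ hn.1 (pow_mem hπ.2.1 _)
    obtain ⟨d, hd⟩ := ha
    refine ⟨c + d, fun x hx => ?_⟩
    rcases Finset.mem_insert.1 hx with rfl | hx
    · rw [add_comm, pow_add, ← mul_assoc]
      exact O.mul_mem _ _ hd (pow_mem hπ.2.1 _)
    · rw [pow_add, ← mul_assoc]
      exact O.mul_mem _ _ (hc x hx) (pow_mem hπ.2.1 _)

end Dsc

section Pol

variable (F : Type) [Field F] [Finite F] {K : Type} [Field K] [Algebra (RatFunc F) K]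
  (O : ValuationSubring K)

omit [Finite F] in
theorem jj_X : jj F (K := K) X = algebraMap (RatFunc F) K RatFunc.X := by
  unfold jj
  rw [RingHom.comp_apply, RatFunc.algebraMap_X]

omit [Finite F] in
theorem jj_inj : Function.Injective (jj F (K := K)) := by
  unfold jj
  exact (algebraMap (RatFunc F) K).injective.comp (IsFractionRing.injective F[X] (RatFunc F))

theorem val_C {c : F} (hc : c ≠ 0) : O.valuation (jj F (K := K) (C c)) = 1 := by
  refine le_antisymm ((O.valuation_le_one_iff _).2 (jj_C_mem F O c)) ?_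
  have h1 := (O.valuation_le_one_iff _).2 (jj_C_mem F (K := K) O c⁻¹)
  have h2 : jj F (K := K) (C c⁻¹) = (jj F (K := K) (C c))⁻¹ := by
    apply eq_inv_of_mul_eq_one_left
    rw [← map_mul, ← C_mul, inv_mul_cancel₀ hc, C_1, map_one]
  rw [h2, map_inv₀] at h1
  have h3 : O.valuation (jj F (K := K) (C c)) ≠ 0 := by
    rw [Valuation.ne_zero_iff]
    intro h
    rw [← map_zero (jj F (K := K))] at h
    exact hc (C_eq_zero.1 (jj_inj F h))
  exact (inv_le_one₀ (zero_lt_iff.2 h3)).1 h1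

variable (hX : algebraMap (RatFunc F) K RatFunc.X ∉ O)

omit [Finite F] in
include hX in
theorem val_X : 1 < O.valuation (jj F (K := K) X) := by
  rw [jj_X, ← not_le, O.valuation_le_one_iff]
  exact hX

include hX in
theorem val_le (p : F[X]) (d : ℕ) (hp : p.natDegree ≤ d) :
    O.valuation (jj F (K := K) p) ≤ O.valuation (jj F (K := K) X) ^ d := by
  have h0 := val_X F O hX
  have h1 : p = ∑ i ∈ Finset.range (d + 1), C (p.coeff i) * X ^ i :=
    p.as_sum_range_C_mul_X_pow' (by omega)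
  rw [h1, map_sum]
  apply Valuation.map_sum_le
  intro i hi
  rw [Finset.mem_range] at hi
  rw [map_mul, map_pow, map_mul, map_pow]
  have h2 : O.valuation (jj F (K := K) (C (p.coeff i))) ≤ 1 :=
    (O.valuation_le_one_iff _).2 (jj_C_mem F O _)
  calc O.valuation (jj F (K := K) (C (p.coeff i))) * O.valuation (jj F (K := K) X) ^ i
      ≤ 1 * O.valuation (jj F (K := K) X) ^ i := mul_le_mul_left h2 _
    _ = O.valuation (jj F (K := K) X) ^ i := one_mul _
    _ ≤ O.valuation (jj F (K := K) X) ^ d := pow_le_pow_right₀ h0.le (by omega)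

include hX in
theorem val_eq (p : F[X]) (hp : p ≠ 0) :
    O.valuation (jj F (K := K) p) = O.valuation (jj F (K := K) X) ^ p.natDegree := by
  have h0 := val_X F O hX
  have hlc : p.leadingCoeff ≠ 0 := leadingCoeff_ne_zero.2 hp
  rcases Nat.eq_zero_or_pos p.natDegree with h1 | h1
  · rw [h1, pow_zero, eq_C_of_natDegree_eq_zero h1]
    refine val_C F O fun h => hlc ?_
    unfold leadingCoeff
    rw [h1, h]
  · have h2 : p = p.eraseLead + C p.leadingCoeff * X ^ p.natDegree :=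
      (eraseLead_add_C_mul_X_pow p).symm
    have h3 : O.valuation (jj F (K := K) (C p.leadingCoeff * X ^ p.natDegree)) =
        O.valuation (jj F (K := K) X) ^ p.natDegree := by
      rw [map_mul, map_pow, map_mul, map_pow, val_C F O hlc, one_mul]
    have h4 : O.valuation (jj F (K := K) p.eraseLead) <
        O.valuation (jj F (K := K) (C p.leadingCoeff * X ^ p.natDegree)) := by
      rw [h3]
      refine (val_le F O hX _ (p.natDegree - 1) (eraseLead_natDegree_le p)).trans_lt ?_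
      exact pow_lt_pow_right₀ h0 (by omega)
    conv_lhs => rw [h2]
    rw [map_add, Valuation.map_add_eq_of_lt_right _ h4, h3]

include hX in
theorem rat_decomp (c : RatFunc F) : ∃ p : F[X],
    algebraMap (RatFunc F) K (c - algebraMap F[X] (RatFunc F) p) ∈ O := by
  have h0 := val_X F O hX
  refine ⟨c.num /ₘ c.denom, ?_⟩
  have h1 : c - algebraMap F[X] (RatFunc F) (c.num /ₘ c.denom) =
      algebraMap F[X] (RatFunc F) (c.num %ₘ c.denom) / algebraMap F[X] (RatFunc F) c.denom := by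
    have h2 : algebraMap F[X] (RatFunc F) c.denom ≠ 0 := by
      rw [Ne, FaithfulSMul.algebraMap_eq_zero_iff]
      exact c.denom_ne_zero
    rw [eq_div_iff h2, sub_mul]
    nth_rewrite 1 [← RatFunc.num_div_denom c]
    rw [div_mul_cancel₀ _ h2, sub_eq_iff_eq_add, ← map_mul, ← map_add]
    congr 1
    nth_rewrite 1 [← modByMonic_add_div c.num c.denom]
    ring
  rw [h1, map_div₀, ← O.valuation_le_one_iff, map_div₀]
  change O.valuation (jj F (K := K) _) / O.valuation (jj F (K := K) _) ≤ 1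
  rw [val_eq F O hX _ c.denom_ne_zero]
  have h5 : (0 : O.ValueGroup) < O.valuation (jj F (K := K) X) ^ c.denom.natDegree :=
    pow_pos (zero_lt_one.trans h0) _
  rw [div_le_one₀ h5]
  exact val_le F O hX _ _ (natDegree_modByMonic_le _ c.monic_denom)

end Pol

end Pool.T1.Gri
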