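import Pool.Agent.H78.T1.Gri1

/-!
# T1: the functions regular outside infinity
-/

set_option autoImplicit false

namespace Pool.T1.Gri

open Polynomial IsDedekindDomain Pool.T1

section Int

theorem exists_val (A : Type) [CommRing A] {K : Type} [Field K] [Algebra A K] {a : K}
    (ha : a ∉ (integralClosure A K).toSubring) :
    ∃ V : ValuationSubring K, (integralClosure A K).toSubring ≤ V.toSubring ∧ a ∉ V :=
  Subring.exists_le_valuationSubring_of_isIntegrallyClosedIn ha

/-- `R` is the intersection of the valuation rings containing `t`. -/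
theorem mem_RS_iff (F : Type) [Field F] [Finite F] {K : Type} [Field K] [Algebra (RatFunc F) K]
    (a : K) : a ∈ RS F K ↔
    ∀ V : ValuationSubring K, algebraMap (RatFunc F) K RatFunc.X ∈ V → a ∈ V := by
  refine ⟨fun h V hV => RS_le F V hV h, fun h => ?_⟩
  by_contra ha
  let := algX F K
  obtain ⟨V, hV, haV⟩ := exists_val F[X] ha
  refine haV (h V (hV ?_))
  have h1 := (xR F K X).2
  rw [xR_coe, RatFunc.algebraMap_X] at h1
  exact h1

/-- An element of all valuation rings is a constant. -/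
theorem inv_mem_of_forall (F : Type) [Field F] [Finite F] {K : Type} [Field K]
    [Algebra (RatFunc F) K] {a : K} (h : ∀ V : ValuationSubring K, a ∈ V)
    (V : ValuationSubring K) : a⁻¹ ∈ V := by
  let := ((jj F (K := K)).comp (C : F →+* F[X])).toAlgebra
  have ha : a ∈ (integralClosure F K).toSubring := by
    by_contra ha
    obtain ⟨V, hV, haV⟩ := exists_val F ha
    exact haV (h V)
  have h1 : IsIntegral F a := ha
  have h2 : IsIntegral F a⁻¹ := isAlgebraic_iff_isIntegral.1 h1.isAlgebraic.inv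
  exact mem_of_integralElem (algebraMap F K) V (fun c => jj_C_mem F V c) h2

end Int

section Lms

variable {F : Type} [Field F] [Finite F] {K : Type} [Field K] [Algebra (RatFunc F) K]
  {O : ValuationSubring K} {π : K}

theorem small_of (hO : OnePole F O) (hπ : Dsc O π) (a : RR F K)
    (ha : a ∈ Lm (RR F K) O π (-1)) : a = 0 := by
  by_contra h0
  have h1 : (a : K) ≠ 0 := fun h => h0 (Subtype.ext h)
  have h2 : (a : K) * π⁻¹ ∈ O := by
    have h3 : (a : K) * π ^ (-1 : ℤ) ∈ O := ha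
    rw [zpow_neg_one] at h3
    exact h3
  have h3 : (a : K) ∈ O := by
    have h4 : (a : K) = (a : K) * π⁻¹ * π := by rw [inv_mul_cancel_right₀ hπ.1]
    rw [h4]
    exact O.mul_mem _ _ h2 hπ.2.1
  have h4 : ∀ V : ValuationSubring K, (a : K) ∈ V := by
    intro V
    by_cases hV : algebraMap (RatFunc F) K RatFunc.X ∈ V
    · exact RS_le F V hV a.2
    · rw [hO.2 V hV]
      exact h3
  have h5 := inv_mem_of_forall F h4 O
  apply hπ.2.2.1
  have h6 : π⁻¹ = (a : K)⁻¹ * ((a : K) * π⁻¹) := by rw [inv_mul_cancel_left₀ h1]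
  rw [h6]
  exact O.mul_mem _ _ h5 h2

end Lms

section Abs

variable {R : Type} [CommRing R] {K : Type} [Field K] [Algebra R K]
  {O : ValuationSubring K} {π : K}

theorem mem_Lm {m : ℤ} {a : R} : a ∈ Lm R O π m ↔ algebraMap R K a * π ^ m ∈ O := Iff.rfl

theorem Lm_zero (m : ℤ) : (0 : R) ∈ Lm R O π m := by
  rw [mem_Lm, map_zero, zero_mul]
  exact O.zero_mem

theorem Lm_add {m : ℤ} {a b : R} (ha : a ∈ Lm R O π m) (hb : b ∈ Lm R O π m) :
    a + b ∈ Lm R O π m := by
  rw [mem_Lm, map_add, add_mul]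
  exact O.add_mem _ _ ha hb

theorem Lm_sub {m : ℤ} {a b : R} (ha : a ∈ Lm R O π m) (hb : b ∈ Lm R O π m) :
    a - b ∈ Lm R O π m := by
  rw [mem_Lm, map_sub, sub_mul]
  exact O.toSubring.sub_mem ha hb

theorem Lm_mono (hπ : Dsc O π) {m n : ℤ} (h : m ≤ n) {a : R} (ha : a ∈ Lm R O π m) :
    a ∈ Lm R O π n := by
  rw [mem_Lm] at ha ⊢
  have h1 : algebraMap R K a * π ^ n = algebraMap R K a * π ^ m * π ^ ((n - m).toNat) := by
    rw [← zpow_natCast, Int.toNat_of_nonneg (by omega), mul_assoc, ← zpow_add₀ hπ.1]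
    congr 2
    omega
  rw [h1]
  exact O.mul_mem _ _ ha (pow_mem hπ.2.1 _)

open Classical in
/-- The leading coefficient. -/
noncomputable def lc (O : ValuationSubring K) (π : K) (m : ℤ) (a : R) :
    IsLocalRing.ResidueField O :=
  if h : algebraMap R K a * π ^ m ∈ O then IsLocalRing.residue O ⟨_, h⟩ else 0

theorem lc_eq {m : ℤ} {a : R} (h : a ∈ Lm R O π m) :
    lc O π m a = IsLocalRing.residue O ⟨algebraMap R K a * π ^ m, h⟩ := by
  unfold lc
  exact dif_pos h

/-- Elements of the maximal ideal. -/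
theorem res_zero {z : O} (hz : IsLocalRing.residue O z = 0) (h : ((z : K))⁻¹ ∈ O) : (z : K) = 0 := by
  by_contra h0
  rw [IsLocalRing.residue_eq_zero_iff, IsLocalRing.mem_maximalIdeal, mem_nonunits_iff] at hz
  apply hz
  refine IsUnit.of_mul_eq_one ⟨(z : K)⁻¹, h⟩ ?_
  apply Subtype.ext
  change (z : K) * (z : K)⁻¹ = 1
  exact mul_inv_cancel₀ h0

theorem res_zero' {z : O} (hπ : Dsc O π) (hz : IsLocalRing.residue O z = 0) :
    (z : K) / π ∈ O := by
  by_cases h : ((z : K))⁻¹ ∈ O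
  · rw [res_zero hz h, zero_div]
    exact O.zero_mem
  · exact dsc_div_mem hπ h

theorem lc_sub_eq (hπ : Dsc O π) {m : ℤ} {a b : R} (ha : a ∈ Lm R O π m) (hb : b ∈ Lm R O π m)
    (h : lc O π m a = lc O π m b) : a - b ∈ Lm R O π (m - 1) := by
  rw [lc_eq ha, lc_eq hb, ← sub_eq_zero, ← map_sub] at h
  have h1 := res_zero' hπ h
  rw [mem_Lm, map_sub, zpow_sub₀ hπ.1, zpow_one]
  have h2 : (algebraMap R K a - algebraMap R K b) * (π ^ m / π) =
      (algebraMap R K a * π ^ m - algebraMap R K b * π ^ m) / π := by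
    rw [sub_mul, sub_div, mul_div_assoc, mul_div_assoc]
  rw [h2]
  exact h1

theorem lc_add_eq (hπ : Dsc O π) {m : ℤ} {a b : R} (ha : a ∈ Lm R O π m)
    (hb : b ∈ Lm R O π (m - 1)) : lc O π m (a + b) = lc O π m a := by
  have hb' : b ∈ Lm R O π m := Lm_mono hπ (by omega) hb
  rw [lc_eq (Lm_add ha hb'), lc_eq ha, ← sub_eq_zero, ← map_sub,
    IsLocalRing.residue_eq_zero_iff, IsLocalRing.mem_maximalIdeal, mem_nonunits_iff]
  rintro ⟨u, hu⟩
  have h1 : ((u : O) : K) = algebraMap R K b * π ^ (m - 1) * π := by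
    rw [hu]
    change algebraMap R K (a + b) * π ^ m - algebraMap R K a * π ^ m = _
    rw [map_add, zpow_sub₀ hπ.1, zpow_one]
    have := hπ.1
    field_simp
    ring
  have h2 : (((u⁻¹ : Oˣ) : O) : K) * ((u : O) : K) = 1 := by
    have h5 : ((u⁻¹ : Oˣ) : O) * (u : O) = 1 := u.inv_mul
    exact congrArg Subtype.val h5
  apply hπ.2.2.1
  have h3 : π⁻¹ = (((u⁻¹ : Oˣ) : O) : K) * (algebraMap R K b * π ^ (m - 1)) := by
    rw [h1, ← mul_assoc] at h2
    exact (eq_inv_of_mul_eq_one_left h2).symm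
  rw [h3]
  exact O.mul_mem _ _ (Subtype.mem _) hb

theorem Lm_finite (hπ : Dsc O π) (hfin : Finite (IsLocalRing.ResidueField O))
    (hs : ∀ a ∈ Lm R O π (-1), a = 0) (n : ℕ) : (Lm R O π ((n : ℤ) - 1)).Finite := by
  induction n with
  | zero =>
    refine (Set.finite_singleton (0 : R)).subset fun a ha => ?_
    rw [Nat.cast_zero, zero_sub] at ha
    exact hs a ha
  | succ n ih =>
    have h1 : ((n + 1 : ℕ) : ℤ) - 1 = (n : ℤ) := by push_cast; ring
    rw [h1]
    refine Set.Finite.of_finite_fibers (lc O π (n : ℤ)) (Set.toFinite _) fun z hz => ?_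
    obtain ⟨a, ha, hz⟩ := hz
    refine (ih.image fun b => a + b).subset ?_
    rintro b ⟨hb, hbz⟩
    refine ⟨b - a, ?_, add_sub_cancel a b⟩
    refine lc_sub_eq hπ hb ha ?_
    rw [Set.mem_preimage, Set.mem_singleton_iff] at hbz
    rw [hbz, hz]

theorem Lm_grow (hπ : Dsc O π) {m : ℤ} (hf : (Lm R O π m).Finite)
    (hsurj : ∀ z, ∃ a ∈ Lm R O π m, lc O π m a = z) :
    qq O * (Lm R O π (m - 1)).ncard ≤ (Lm R O π m).ncard := by
  choose s hs hs' using hsurj
  have h1 : Finite (Lm R O π m) := hf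
  have h2 : Nat.card (IsLocalRing.ResidueField O × Lm R O π (m - 1)) ≤ Nat.card (Lm R O π m) := by
    refine Nat.card_le_card_of_injective
      (fun x => ⟨s x.1 + x.2, Lm_add (hs _) (Lm_mono hπ (by omega) x.2.2)⟩) ?_
    rintro ⟨z, a⟩ ⟨w, b⟩ h
    have h3 : s z + (a : R) = s w + (b : R) := congrArg Subtype.val h
    have h4 : z = w := by
      have h5 := lc_add_eq hπ (hs z) a.2
      have h6 := lc_add_eq hπ (hs w) b.2
      rw [h3, h6, hs', hs'] at h5
      exact h5.symm
    subst h4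
    have h5 := add_left_cancel h3
    rw [Subtype.ext h5]
  rw [Nat.card_prod] at h2
  exact h2

end Abs

end Pool.T1.Gri
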