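import Pool.Agent.H78.T1.Dvr

/-!
# T1: the valuation ring at infinity is discrete
-/

set_option autoImplicit false

namespace Pool.T1.Gri

open Polynomial IsDedekindDomain Pool.T1

section Tau

variable (F : Type) [Field F]

/-- The substitution `t ↦ 1/t` on polynomials. -/
noncomputable def tau0 : F[X] →+* RatFunc F :=
  eval₂RingHom (algebraMap F (RatFunc F)) (RatFunc.X)⁻¹

theorem tau0_inj : Function.Injective (tau0 F) := by
  have h1 : Transcendental F ((RatFunc.X : RatFunc F)⁻¹) := by
    intro h
    have h2 := h.inv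
    rw [inv_inv] at h2
    exact RatFunc.transcendental_X h2
  have h2 := transcendental_iff_injective.1 h1
  intro p q hpq
  exact h2 hpq

/-- The substitution `t ↦ 1/t`. -/
noncomputable def tau1 : RatFunc F →+* RatFunc F := IsFractionRing.lift (tau0_inj F)

theorem tau1_X : tau1 F RatFunc.X = (RatFunc.X)⁻¹ := by
  rw [← RatFunc.algebraMap_X, tau1, IsFractionRing.lift_algebraMap, tau0, coe_eval₂RingHom,
    eval₂_X, RatFunc.algebraMap_X]

theorem tau1_C (c : F) : tau1 F (algebraMap F[X] (RatFunc F) (C c)) =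
    algebraMap F[X] (RatFunc F) (C c) := by
  rw [tau1, IsFractionRing.lift_algebraMap, tau0, coe_eval₂RingHom, eval₂_C]
  rfl

theorem tau1_tau1 : (tau1 F).comp (tau1 F) = RingHom.id _ := by
  apply IsFractionRing.ringHom_ext (A := F[X])
  intro p
  rw [RingHom.comp_apply, RingHom.id_apply]
  induction p using Polynomial.induction_on' with
  | add p q hp hq => rw [map_add, map_add, map_add, hp, hq]
  | monomial n c =>
    rw [← C_mul_X_pow_eq_monomial, map_mul, map_mul, map_mul, tau1_C, tau1_C, map_pow, map_pow,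
      map_pow, RatFunc.algebraMap_X, tau1_X, map_inv₀, tau1_X, inv_inv]

/-- The substitution `t ↦ 1/t` as an equivalence. -/
noncomputable def tau : RatFunc F ≃+* RatFunc F :=
  RingEquiv.ofRingHom (tau1 F) (tau1 F) (tau1_tau1 F) (tau1_tau1 F)

end Tau

section Main

variable (F : Type) [Field F] [Finite F] (K : Type) [Field K] [i1 : Algebra (RatFunc F) K]
  [i2 : FiniteDimensional (RatFunc F) K] [i3 : Algebra.IsSeparable (RatFunc F) K]

/-- The valuation rings not containing `t` are discrete, with finite residue field. -/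
theorem dvr_inf (O : ValuationSubring K) (h1 : algebraMap (RatFunc F) K RatFunc.X ∉ O) :
    (∃ ϖ, Dsc O ϖ) ∧ Finite (IsLocalRing.ResidueField O) := by
  let φ : RatFunc F →+* K := (algebraMap (RatFunc F) K).comp (tau F : RatFunc F →+* RatFunc F)
  have hφ : φ RatFunc.X = (algebraMap (RatFunc F) K RatFunc.X)⁻¹ := by
    change algebraMap (RatFunc F) K (tau1 F RatFunc.X) = _
    rw [tau1_X, map_inv₀]
  have hfin : φ.Finite := by
    have h3 : (algebraMap (RatFunc F) K).Finite := RingHom.finite_algebraMap.2 i2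
    exact h3.comp (RingHom.Finite.of_surjective _ (tau F).surjective)
  have hsep : @Algebra.IsSeparable (RatFunc F) K _ _ φ.toAlgebra := by
    refine @Algebra.IsSeparable.of_equiv_equiv (RatFunc F) K (RatFunc F) K _ _ _ _ i1 φ.toAlgebra
      (tau F).symm (RingEquiv.refl K) (RingHom.ext fun x => ?_) i3
    change φ ((tau F).symm x) = algebraMap (RatFunc F) K x
    change algebraMap (RatFunc F) K (tau F ((tau F).symm x)) = algebraMap (RatFunc F) K x
    rw [RingEquiv.apply_symm_apply]
  have hm : algebraMap (RatFunc F) K RatFunc.X ∈ O ∨ (algebraMap (RatFunc F) K RatFunc.X)⁻¹ ∈ O :=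
    O.mem_or_inv_mem _
  refine @dvr_of F _ _ K _ φ.toAlgebra hfin hsep O ?_ ?_
  · change φ RatFunc.X ∈ O
    rw [hφ]
    exact hm.resolve_left h1
  · change (φ RatFunc.X)⁻¹ ∉ O
    rw [hφ, inv_inv]
    exact h1

end Main

end Pool.T1.Gri
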